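import Pool.Agent.Helper94.Tot.Goals

/-!
# Packet Y: the normalised completely additive function of the iterated totient
-/

set_option autoImplicit false

open Finset Pool.Agent.Helper94.Tot

namespace Pool.Agent.Helper82.Tot

theorem lg_eq (n : ℕ) : lg n = Real.log n / Real.log 2 := rfl

theorem lg_nonneg (n : ℕ) : 0 ≤ lg n := by
  rw [lg_eq]
  exact div_nonneg (Real.log_natCast_nonneg n) (Real.log_nonneg (by norm_num))

theorem lg_mul {a b : ℕ} (ha : a ≠ 0) (hb : b ≠ 0) : lg (a * b) = lg a + lg b := by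
  rw [lg_eq, lg_eq, lg_eq, Nat.cast_mul,
    Real.log_mul (Nat.cast_ne_zero.2 ha) (Nat.cast_ne_zero.2 hb), add_div]

theorem lg_one : lg 1 = 0 := by rw [lg_eq]; simp

theorem lg_two : lg 2 = 1 := by
  rw [lg_eq]
  have : Real.log 2 ≠ 0 := (Real.log_pos (by norm_num)).ne'
  push_cast
  exact div_self this

theorem lg_mono {a b : ℕ} (ha : a ≠ 0) (h : a ≤ b) : lg a ≤ lg b := by
  rw [lg_eq, lg_eq]
  apply div_le_div_of_nonneg_right _ (Real.log_nonneg (by norm_num))
  exact Real.log_le_log (by exact_mod_cast Nat.pos_of_ne_zero ha) (by exact_mod_cast h)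

/-- a completely additive function as a sum over the factorization -/
theorem additive_sum (h : ℕ → ℝ) (h1 : h 1 = 0)
    (hm : ∀ {a b : ℕ}, a ≠ 0 → b ≠ 0 → h (a * b) = h a + h b) {n : ℕ} (hn : n ≠ 0) :
    h n = ∑ q ∈ n.primeFactors, (n.factorization q : ℝ) * h q := by
  have hpow : ∀ {a : ℕ} (_ : a ≠ 0) (k : ℕ), h (a ^ k) = k * h a := by
    intro a ha k
    induction k with
    | zero => simp [h1]
    | succ k ih => rw [pow_succ, hm (pow_ne_zero _ ha) ha, ih]; push_cast; ring
  have key : ∀ s : Finset ℕ, (∀ q ∈ s, q ≠ 0) →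
      h (∏ q ∈ s, q ^ n.factorization q) = ∑ q ∈ s, (n.factorization q : ℝ) * h q := by
    intro s
    induction s using Finset.induction_on with
    | empty => intro _; simp [h1]
    | insert a s ha ih =>
      intro hs
      rw [Finset.prod_insert ha, Finset.sum_insert ha, hm, ih, hpow]
      · exact hs a (Finset.mem_insert_self _ _)
      · intro q hq; exact hs q (Finset.mem_insert_of_mem hq)
      · exact pow_ne_zero _ (hs a (Finset.mem_insert_self _ _))
      · rw [Finset.prod_ne_zero_iff]
        intro q hq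
        exact pow_ne_zero _ (hs q (Finset.mem_insert_of_mem hq))
  have h2 := key n.primeFactors (fun q hq => (Nat.prime_of_mem_primeFactors hq).ne_zero)
  have h3 : ∏ q ∈ n.primeFactors, q ^ n.factorization q = n := by
    have := Nat.prod_factorization_pow_eq_self hn
    rw [Finsupp.prod, Nat.support_factorization] at this
    exact this
  rw [h3] at h2
  exact h2

theorem f_sum {n : ℕ} (hn : n ≠ 0) :
    (Pool.Agent.Helper42.Tot.f n : ℝ) = ∑ q ∈ n.primeFactors, (n.factorization q : ℝ) * (Pool.Agent.Helper42.Tot.f q : ℝ) := by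
  refine additive_sum (fun n => (Pool.Agent.Helper42.Tot.f n : ℝ)) ?_ ?_ hn
  · simp [Pool.Agent.Helper42.Tot.f_one]
  · intro a b ha hb
    have := Pool.Agent.Helper42.Tot.f_mul ha hb
    simp only [this]
    push_cast
    ring

theorem lg_sum {n : ℕ} (hn : n ≠ 0) :
    lg n = ∑ q ∈ n.primeFactors, (n.factorization q : ℝ) * lg q :=
  additive_sum lg lg_one (fun ha hb => lg_mul ha hb) hn

theorem fact_ge_one {n q : ℕ} (hq : q ∈ n.primeFactors) : (1 : ℝ) ≤ (n.factorization q : ℝ) := by
  have h1 := Nat.prime_of_mem_primeFactors hq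
  have h2 := Nat.dvd_of_mem_primeFactors hq
  have h3 : n ≠ 0 := (Nat.mem_primeFactors.1 hq).2.2
  exact_mod_cast (h1.dvd_iff_one_le_factorization h3).1 h2

theorem f_le_lg : ∀ n : ℕ, n ≠ 0 → (Pool.Agent.Helper42.Tot.f n : ℝ) ≤ lg n := by
  intro n
  induction n using Nat.strong_induction_on with
  | _ n ih =>
    intro hn
    by_cases h1 : n = 1
    · subst h1; simp [Pool.Agent.Helper42.Tot.f_one, lg_one]
    obtain ⟨p, hp, m, rfl⟩ := Nat.exists_prime_and_dvd h1
    have hm : m ≠ 0 := by rintro rfl; simp at hn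
    have hp2 := hp.two_le
    rw [Pool.Agent.Helper42.Tot.f_mul hp.ne_zero hm, lg_mul hp.ne_zero hm]
    push_cast
    have hm1 : (Pool.Agent.Helper42.Tot.f m : ℝ) ≤ lg m := by
      apply ih m _ hm
      have : 2 * m ≤ p * m := Nat.mul_le_mul_right _ hp2
      omega
    have hp1 : (Pool.Agent.Helper42.Tot.f p : ℝ) ≤ lg p := by
      by_cases h2 : p = 2
      · subst h2; rw [Pool.Agent.Helper42.Tot.f_two, lg_two]; norm_num
      · rw [Pool.Agent.Helper42.Tot.f_odd_prime hp h2]
        have h3 : p - 1 < p * m := by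
          have : p * 1 ≤ p * m := Nat.mul_le_mul_left _ (Nat.pos_of_ne_zero hm)
          omega
        exact (ih (p - 1) h3 (by omega)).trans (lg_mono (by omega) (by omega))
    linarith

theorem log_le_f : ∀ n : ℕ, n ≠ 0 → Real.log n / Real.log 3 ≤ (Pool.Agent.Helper42.Tot.f n : ℝ) := by
  have hl3 : 0 < Real.log 3 := Real.log_pos (by norm_num)
  intro n
  induction n using Nat.strong_induction_on with
  | _ n ih =>
    intro hn
    by_cases h1 : n = 1
    · subst h1; simp [Pool.Agent.Helper42.Tot.f_one]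
    obtain ⟨p, hp, m, rfl⟩ := Nat.exists_prime_and_dvd h1
    have hm : m ≠ 0 := by rintro rfl; simp at hn
    have hp2 := hp.two_le
    rw [Pool.Agent.Helper42.Tot.f_mul hp.ne_zero hm]
    push_cast
    rw [Real.log_mul (by exact_mod_cast hp.ne_zero) (by exact_mod_cast hm), add_div]
    have hm1 : Real.log m / Real.log 3 ≤ (Pool.Agent.Helper42.Tot.f m : ℝ) := by
      apply ih m _ hm
      have : 2 * m ≤ p * m := Nat.mul_le_mul_right _ hp2
      omega
    have hp1 : Real.log p / Real.log 3 ≤ (Pool.Agent.Helper42.Tot.f p : ℝ) := by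
      by_cases h2 : p = 2
      · subst h2
        rw [Pool.Agent.Helper42.Tot.f_two, div_le_iff₀ hl3]
        push_cast
        rw [one_mul]
        exact Real.log_le_log (by norm_num) (by norm_num)
      · rw [Pool.Agent.Helper42.Tot.f_odd_prime hp h2]
        obtain ⟨k, hk⟩ := hp.odd_of_ne_two h2
        subst hk
        have hk0 : k ≠ 0 := by rintro rfl; simp at hp2
        have h4 : 2 * k + 1 - 1 = 2 * k := by omega
        rw [h4, Pool.Agent.Helper42.Tot.f_mul (by norm_num) hk0, Pool.Agent.Helper42.Tot.f_two]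
        push_cast
        have h5 : Real.log k / Real.log 3 ≤ (Pool.Agent.Helper42.Tot.f k : ℝ) := by
          apply ih k _ hk0
          have : (2 * k + 1) * 1 ≤ (2 * k + 1) * m := Nat.mul_le_mul_left _ (Nat.pos_of_ne_zero hm)
          omega
        have hkp : (0 : ℝ) < k := by exact_mod_cast Nat.pos_of_ne_zero hk0
        have hk1 : (1 : ℝ) ≤ k := by exact_mod_cast Nat.pos_of_ne_zero hk0
        have h6 : Real.log (2 * k + 1) ≤ Real.log 3 + Real.log k := by
          rw [← Real.log_mul (by norm_num) hkp.ne']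
          apply Real.log_le_log (by positivity)
          linarith
        rw [div_le_iff₀ hl3] at h5 ⊢
        nlinarith
    linarith

theorem lg_prime_pos {p : ℕ} (hp : p.Prime) : 0 < lg p := by
  rw [lg_eq]
  exact div_pos (Real.log_pos (by exact_mod_cast hp.one_lt)) (Real.log_pos (by norm_num))

theorem lg_yy {p : ℕ} (hp : p.Prime) : lg p * yy p = (Pool.Agent.Helper42.Tot.f p : ℝ) := by
  unfold yy
  have := (lg_prime_pos hp).ne'
  simp only [hp, if_true]
  field_simp

theorem mx_eq {p : ℕ} (hp : p.Prime) :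
    mx p = ∑ q ∈ (p - 1).primeFactors, ((p - 1).factorization q - 1 : ℝ) * lg q := by
  have h1 : p - 1 ≠ 0 := by have := hp.two_le; omega
  unfold mx
  rw [lg_sum h1, ← Finset.sum_sub_distrib]
  apply Finset.sum_congr rfl
  intro q _
  ring

theorem pf_Y : StmtY := by
  refine ⟨?_, ?_, ?_, ?_⟩
  · intro p
    by_cases hp : p.Prime
    · have h1 := lg_prime_pos hp
      have h2 := lg_yy hp
      have h3 := f_le_lg p hp.ne_zero
      have h4 : (0 : ℝ) ≤ (Pool.Agent.Helper42.Tot.f p : ℝ) := Nat.cast_nonneg _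
      constructor
      · by_contra h
        push Not at h
        nlinarith
      · by_contra h
        push Not at h
        nlinarith
    · unfold yy
      simp [hp]
  · intro p hp
    rw [lg_yy hp, mx_eq hp, ← Finset.sum_add_distrib]
    by_cases h2 : p = 2
    · subst h2
      rw [Pool.Agent.Helper42.Tot.f_two]
      simp
    · have h1 : p - 1 ≠ 0 := by have := hp.two_le; omega
      rw [Pool.Agent.Helper42.Tot.f_odd_prime hp h2, f_sum h1]
      have : ∑ q ∈ (p - 1).primeFactors, ((p - 1).factorization q : ℝ) * (Pool.Agent.Helper42.Tot.f q : ℝ) ≤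
          ∑ q ∈ (p - 1).primeFactors,
            (lg q * yy q + ((p - 1).factorization q - 1 : ℝ) * lg q) := by
        apply Finset.sum_le_sum
        intro q hq
        have hqp := Nat.prime_of_mem_primeFactors hq
        rw [lg_yy hqp]
        have h5 := f_le_lg q hqp.ne_zero
        have h6 := fact_ge_one hq
        nlinarith
      linarith
  · intro p hp
    have h1 : p - 1 ≠ 0 := by have := hp.two_le; omega
    rw [mx_eq hp, ← Finset.sum_add_distrib]
    have e1 : lg p * (1 - yy p) = lg p - (Pool.Agent.Helper42.Tot.f p : ℝ) := by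
      rw [mul_sub, lg_yy hp, mul_one]
    rw [e1]
    by_cases h2 : p = 2
    · subst h2
      rw [Pool.Agent.Helper42.Tot.f_two, lg_two]
      simp
    · have h7 : lg p ≤ lg (p - 1) + 1 := by
        have h8 : lg p ≤ lg (2 * (p - 1)) := lg_mono hp.ne_zero (by have := hp.two_le; omega)
        rw [lg_mul (by norm_num) h1, lg_two] at h8
        linarith
      rw [Pool.Agent.Helper42.Tot.f_odd_prime hp h2, f_sum h1]
      rw [lg_sum h1] at h7
      have : ∑ q ∈ (p - 1).primeFactors, ((p - 1).factorization q : ℝ) * lg q -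
          ∑ q ∈ (p - 1).primeFactors, ((p - 1).factorization q : ℝ) * (Pool.Agent.Helper42.Tot.f q : ℝ) ≤
          ∑ q ∈ (p - 1).primeFactors,
            (lg q * (1 - yy q) + ((p - 1).factorization q - 1 : ℝ) * lg q) := by
        rw [← Finset.sum_sub_distrib]
        apply Finset.sum_le_sum
        intro q hq
        have hqp := Nat.prime_of_mem_primeFactors hq
        rw [mul_sub, lg_yy hqp]
        have h5 : (0 : ℝ) ≤ (Pool.Agent.Helper42.Tot.f q : ℝ) := Nat.cast_nonneg _
        have h6 := fact_ge_one hq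
        nlinarith
      linarith
  · intro p hp
    have h1 := lg_prime_pos hp
    have h2 := lg_yy hp
    have h3 := log_le_f p hp.ne_zero
    have h4 : (0 : ℝ) < Real.log 2 := Real.log_pos (by norm_num)
    have h5 : (0 : ℝ) < Real.log 3 := Real.log_pos (by norm_num)
    have h6 : lg p * (Real.log 2 / Real.log 3) ≤ lg p * yy p := by
      rw [h2]
      refine le_trans (le_of_eq ?_) h3
      rw [lg_eq]
      field_simp
    exact le_of_mul_le_mul_left h6 h1

end Pool.Agent.Helper82.Tot
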